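import Pool.Agent.Helper14.BSC.Stmts2

set_option autoImplicit false

namespace Pool.Agent.Helper14.BSC

open Polynomial

/-- divide out powers of the inner variable -/
lemma dep_div {k L : Type} [Field k] [Field L] [Algebra k L] (f0 x : L) (hf : f0 ≠ 0) :
    ∀ (n : ℕ) (G : Polynomial (Polynomial k)), G ≠ 0 → G.leadingCoeff.natDegree = n →
      eval₂ (Polynomial.aeval f0).toRingHom x G = 0 →
      ∃ G' : Polynomial (Polynomial k), (∃ j, (G'.coeff j).coeff 0 ≠ 0) ∧
        eval₂ (Polynomial.aeval f0).toRingHom x G' = 0 := by
  intro n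
  induction n with
  | zero =>
    intro G hG hn hev
    refine ⟨G, ⟨G.natDegree, ?_⟩, hev⟩
    intro h0
    have h1 : G.leadingCoeff = 0 := by
      rw [Polynomial.eq_C_of_natDegree_eq_zero hn]
      have : G.leadingCoeff.coeff 0 = 0 := h0
      rw [this, C_0]
    exact hG (Polynomial.leadingCoeff_eq_zero.1 h1)
  | succ n ih =>
    intro G hG hn hev
    by_cases h : ∃ j, (G.coeff j).coeff 0 ≠ 0
    · exact ⟨G, h, hev⟩
    · push Not at h
      have hd : C (X : Polynomial k) ∣ G := by
        rw [Polynomial.C_dvd_iff_dvd_coeff]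
        intro i
        rw [Polynomial.X_dvd_iff]
        exact h i
      obtain ⟨G1, hG1⟩ := hd
      have hG10 : G1 ≠ 0 := by
        rintro rfl
        exact hG (by rw [hG1, mul_zero])
      have hlc : G.leadingCoeff = X * G1.leadingCoeff := by
        rw [hG1, Polynomial.leadingCoeff_mul, Polynomial.leadingCoeff_C]
      have hn1 : G1.leadingCoeff.natDegree = n := by
        rw [hlc, Polynomial.natDegree_X_mul (Polynomial.leadingCoeff_ne_zero.2 hG10)] at hn
        omega
      refine ih G1 hG10 hn1 ?_
      rw [hG1, Polynomial.eval₂_mul, Polynomial.eval₂_C] at hev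
      have h2 : (Polynomial.aeval f0).toRingHom (X : Polynomial k) = f0 := by
        show Polynomial.aeval f0 (X : Polynomial k) = f0
        exact Polynomial.aeval_X _
      rw [h2] at hev
      exact (mul_eq_zero.1 hev).resolve_left hf

section

variable {k Ω : Type} [Field k] [Field Ω] [Algebra k Ω] {D : Sec k Ω} {p : ℕ} [Fact p.Prime]
  {σ : k →+* ℂ_[p]}

/-- constants in the ring of a place -/
def depK (P : Place D p σ) : k →+* P.C where
  toFun c := ⟨algebraMap k (LL D) c, (P.base c).1⟩
  map_one' := Subtype.ext (map_one _)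
  map_mul' a b := Subtype.ext (map_mul _ a b)
  map_zero' := Subtype.ext (map_zero _)
  map_add' a b := Subtype.ext (map_add _ a b)

lemma dep_coe (P : Place D p σ) :
    (P.C.subtype : P.C →+* LL D).comp (depK P) = algebraMap k (LL D) := rfl

lemma dep_phi (P : Place D p σ) : P.φ.comp (depK P) = σ := by
  ext c
  exact (P.base c).2

end

theorem st_DEP (hB : ST_BOT) : ST_DEP := by
  intro k Ω _ _ _ _ _ D g x H hg hH hroot htr
  by_cases hc : ∃ c : k, Polynomial.aeval g H = algebraMap k (LL D) c
  · obtain ⟨c, hc⟩ := hc
    -- `g` would be algebraic unless `H` is constant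
    have hHc : H - C c = 0 := by
      by_contra hne
      have halg : IsAlgebraic k g := ⟨H - C c, hne, by
        rw [map_sub, hc, Polynomial.aeval_C, sub_self]⟩
      have halg2 : IsAlgebraic k (g : Ω) := by
        have := halg.algebraMap (A := Ω)
        exact this
      have hmem : (g : Ω) ∈ Acl k Ω := mem_algebraicClosure_iff.2 halg2
      let a : Acl k Ω := ⟨(g : Ω), hmem⟩
      have ha : a ∈ FF (∅ : Set (Acl k Ω)) := by
        refine coe_mem_NN (D := D).1 ?_
        exact g.2
      obtain ⟨c', hc'⟩ := hB k Ω a ha
      apply hg c'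
      apply Subtype.ext
      have := congrArg (fun z : Acl k Ω => (z : Ω)) hc'
      exact this
    have hHC : H = C c := sub_eq_zero.1 hHc
    have hc0 : c ≠ 0 := by
      rintro rfl
      exact hH (by rw [hHC, C_0])
    refine ⟨1, one_ne_zero, ?_⟩
    intro p _ σ hσ P h
    exfalso
    obtain ⟨h1, h2⟩ := hroot p σ hσ P
    rw [hHC, Polynomial.map_C, Polynomial.eval_C] at h2
    exact hc0 ((map_eq_zero σ).1 h2)
  · push Not at hc
    obtain ⟨G, hG, hGe⟩ := htr (Polynomial.aeval g H) x hc
    have hf0 : Polynomial.aeval g H ≠ 0 := by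
      have := hc 0
      rwa [map_zero] at this
    obtain ⟨G', ⟨j, hj⟩, hGe'⟩ := dep_div (Polynomial.aeval g H) x hf0 _ G hG rfl hGe
    refine ⟨G'.map Polynomial.constantCoeff, ?_, ?_⟩
    · intro h0
      apply hj
      have := congrArg (fun q : Polynomial k => q.coeff j) h0
      simpa [Polynomial.coeff_map] using this
    · intro p _ σ hσ P hx
      obtain ⟨hgC, h2⟩ := hroot p σ hσ P
      set gC : P.C := ⟨g, hgC⟩ with hgCdef
      set xC : P.C := ⟨x, hx⟩ with hxCdef
      set f0C : P.C := Polynomial.eval₂ (depK P) gC H with hf0C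
      have hcoe : (P.C.subtype : P.C →+* LL D) f0C = Polynomial.aeval g H := by
        rw [hf0C, Polynomial.hom_eval₂, dep_coe, Polynomial.aeval_def]
        rfl
      have hphi : P.φ f0C = 0 := by
        rw [hf0C, Polynomial.hom_eval₂, dep_phi, ← Polynomial.eval_map]
        exact h2
      have e1 : (P.C.subtype : P.C →+* LL D).comp (Polynomial.eval₂RingHom (depK P) f0C)
          = (Polynomial.aeval (Polynomial.aeval g H)).toRingHom := by
        refine Polynomial.ringHom_ext ?_ ?_
        · intro a
          simp only [RingHom.comp_apply, Polynomial.coe_eval₂RingHom, Polynomial.eval₂_C]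
          show algebraMap k (LL D) a = Polynomial.aeval (Polynomial.aeval g H) (C a)
          rw [Polynomial.aeval_C]
        · simp only [RingHom.comp_apply, Polynomial.coe_eval₂RingHom, Polynomial.eval₂_X]
          show (P.C.subtype : P.C →+* LL D) f0C = Polynomial.aeval (Polynomial.aeval g H) X
          rw [Polynomial.aeval_X, hcoe]
      have e2 : P.φ.comp (Polynomial.eval₂RingHom (depK P) f0C) = σ.comp Polynomial.constantCoeff := by
        refine Polynomial.ringHom_ext ?_ ?_
        · intro a
          simp only [RingHom.comp_apply, Polynomial.coe_eval₂RingHom, Polynomial.eval₂_C,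
            Polynomial.constantCoeff_apply, Polynomial.coeff_C_zero]
          exact (P.base a).2
        · simp only [RingHom.comp_apply, Polynomial.coe_eval₂RingHom, Polynomial.eval₂_X, hphi,
            Polynomial.constantCoeff_apply, Polynomial.coeff_X_zero, map_zero]
      have e3 : Polynomial.eval₂ (Polynomial.eval₂RingHom (depK P) f0C) xC G' = 0 := by
        have h3 : (P.C.subtype : P.C →+* LL D)
            (Polynomial.eval₂ (Polynomial.eval₂RingHom (depK P) f0C) xC G') = 0 := by
          rw [Polynomial.hom_eval₂, e1]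
          exact hGe'
        exact Subtype.ext h3
      have e4 := congrArg P.φ e3
      rw [Polynomial.hom_eval₂, e2, map_zero] at e4
      rw [Polynomial.eval_map, Polynomial.eval₂_map]
      exact e4

end Pool.Agent.Helper14.BSC
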