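import Pool.Agent.Helper14.BSC.Stmts

set_option autoImplicit false

namespace Pool.Agent.Helper14.BSC

section

variable {k Ω : Type} [Field k] [Field Ω] [Algebra k Ω] {p : ℕ} [Fact p.Prime]

lemma resk_mul (Lc : Loc k Ω p) (x y : Acl k Ω) : nm Lc (x * y) = nm Lc x * nm Lc y := by
  unfold nm
  rw [map_mul, norm_mul]

lemma resk_one (Lc : Loc k Ω p) : nm Lc 1 = 1 := by
  unfold nm
  rw [map_one, norm_one]

lemma resk_add (Lc : Loc k Ω p) (x y : Acl k Ω) : nm Lc (x + y) ≤ max (nm Lc x) (nm Lc y) := by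
  unfold nm
  rw [map_add]
  exact IsUltrametricDist.norm_add_le_max _ _

/-- the valuation ring -/
def reskO (Lc : Loc k Ω p) : ValuationSubring (FF Lc.S₁) where
  carrier := {x | nm Lc x ≤ 1}
  mul_mem' := by
    intro x y hx hy
    show nm Lc ((x * y : FF Lc.S₁) : Acl k Ω) ≤ 1
    push_cast
    rw [resk_mul]
    exact mul_le_one₀ hx (norm_nonneg _) hy
  one_mem' := by
    show nm Lc ((1 : FF Lc.S₁) : Acl k Ω) ≤ 1
    push_cast
    rw [resk_one]
  add_mem' := by
    intro x y hx hy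
    show nm Lc ((x + y : FF Lc.S₁) : Acl k Ω) ≤ 1
    push_cast
    exact (resk_add Lc _ _).trans (max_le hx hy)
  zero_mem' := by
    show nm Lc ((0 : FF Lc.S₁) : Acl k Ω) ≤ 1
    unfold nm
    simp
  neg_mem' := by
    intro x hx
    show nm Lc ((-x : FF Lc.S₁) : Acl k Ω) ≤ 1
    unfold nm
    push_cast
    rw [map_neg, norm_neg]
    exact hx
  mem_or_inv_mem' := by
    intro x
    show nm Lc (x : Acl k Ω) ≤ 1 ∨ nm Lc ((x⁻¹ : FF Lc.S₁) : Acl k Ω) ≤ 1
    rcases le_total (nm Lc (x : Acl k Ω)) 1 with h | h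
    · exact Or.inl h
    · right
      unfold nm at *
      push_cast
      rw [map_inv₀, norm_inv]
      exact inv_le_one_of_one_le₀ h

lemma resk_mem (Lc : Loc k Ω p) (x : FF Lc.S₁) : x ∈ reskO Lc ↔ nm Lc x ≤ 1 := Iff.rfl

lemma resk_res (Lc : Loc k Ω p) (x : reskO Lc) :
    IsLocalRing.residue (reskO Lc) x = 0 ↔ nm Lc ((x : FF Lc.S₁) : Acl k Ω) < 1 := by
  rw [IsLocalRing.residue_eq_zero_iff, IsLocalRing.mem_maximalIdeal, mem_nonunits_iff]
  constructor
  · intro h
    by_contra hc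
    apply h
    have h1 : nm Lc ((x : FF Lc.S₁) : Acl k Ω) = 1 := le_antisymm x.2 (not_lt.1 hc)
    have hx0 : (x : FF Lc.S₁) ≠ 0 := by
      intro h0
      rw [h0] at h1
      unfold nm at h1
      simp at h1
    have hinv : (x : FF Lc.S₁)⁻¹ ∈ reskO Lc := by
      rw [resk_mem]
      unfold nm at *
      push_cast
      rw [map_inv₀, norm_inv, h1, inv_one]
    refine IsUnit.of_mul_eq_one ⟨_, hinv⟩ ?_
    apply Subtype.ext
    show (x : FF Lc.S₁) * (x : FF Lc.S₁)⁻¹ = 1
    exact mul_inv_cancel₀ hx0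
  · intro h hu
    obtain ⟨y, hy⟩ := hu.exists_right_inv
    have h1 : (x : FF Lc.S₁) * (y : FF Lc.S₁) = 1 := congrArg Subtype.val hy
    have h2 : nm Lc (((x : FF Lc.S₁) * (y : FF Lc.S₁) : FF Lc.S₁) : Acl k Ω) = 1 := by
      rw [h1]
      push_cast
      exact resk_one Lc
    push_cast at h2
    rw [resk_mul] at h2
    have h3 : nm Lc ((y : FF Lc.S₁) : Acl k Ω) ≤ 1 := y.2
    have h4 : 0 ≤ nm Lc ((x : FF Lc.S₁) : Acl k Ω) := norm_nonneg _
    nlinarith

end

theorem st_RESK : ST_RESK := by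
  intro k Ω _ _ _ p _ Lc
  classical
  have hp : p.Prime := Fact.out
  let O := reskO Lc
  let κ := IsLocalRing.ResidueField O
  let res : O →+* κ := IsLocalRing.residue O
  have hsurj : Function.Surjective res := IsLocalRing.residue_surjective
  have hchar : CharP κ p := by
    rw [CharP.charP_iff_prime_eq_zero hp]
    have h1 : res ((p : ℕ) : O) = 0 := by
      refine (resk_res Lc ((p : ℕ) : O)).2 ?_
      have h2 : ((((p : ℕ) : O) : FF Lc.S₁) : Acl k Ω) = ((p : ℕ) : Acl k Ω) := by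
        push_cast
        rfl
      rw [h2]
      unfold nm
      rw [map_natCast]
      have h3 : ‖((p : ℕ) : ℂ_[p])‖ = (p : ℝ)⁻¹ := by
        have := PadicComplex.norm_extends' p ((p : ℕ) : ℚ_[p])
        rw [Padic.norm_p] at this
        rw [← this]
        congr 1
        rw [map_natCast, PadicComplex.coe_natCast]
      rw [h3]
      exact inv_lt_one_of_one_lt₀ (by exact_mod_cast hp.one_lt)
    rwa [map_natCast] at h1
  have hfin : Finite κ := by
    obtain ⟨N, hN, hres⟩ := Lc.finres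
    have hpoly : (Polynomial.X ^ (N + 1) - Polynomial.X : Polynomial κ) ≠ 0 :=
      FiniteField.X_pow_card_sub_X_ne_zero κ (by omega)
    rw [← Set.finite_univ_iff]
    refine Set.Finite.subset
      (Polynomial.X ^ (N + 1) - Polynomial.X : Polynomial κ).roots.toFinset.finite_toSet ?_
    intro a _
    rw [Finset.mem_coe, Multiset.mem_toFinset, Polynomial.mem_roots hpoly, Polynomial.IsRoot.def]
    simp only [Polynomial.eval_sub, Polynomial.eval_pow, Polynomial.eval_X]
    by_cases ha : a = 0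
    · rw [ha]; simp
    · obtain ⟨x, rfl⟩ := hsurj a
      have hx1 : nm Lc ((x : FF Lc.S₁) : Acl k Ω) = 1 := by
        refine le_antisymm x.2 (not_lt.1 fun h => ha ?_)
        exact (resk_res Lc x).2 h
      have h3 := hres ((x : FF Lc.S₁) : Acl k Ω) (x : FF Lc.S₁).2 hx1
      have h4 : res (x ^ N - 1) = 0 := by
        refine (resk_res Lc _).2 ?_
        have h5 : (((x ^ N - 1 : O) : FF Lc.S₁) : Acl k Ω) = ((x : FF Lc.S₁) : Acl k Ω) ^ N - 1 := by
          push_cast
          rfl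
        rw [h5]
        exact h3
      rw [map_sub, map_pow, map_one] at h4
      rw [pow_succ]
      linear_combination (res x) * h4
  refine ⟨κ, inferInstance, hfin, hchar,
    fun x => if h : x ∈ O then res ⟨x, h⟩ else 0, ?_, ?_, ?_, ?_⟩
  · have h1 : (1 : FF Lc.S₁) ∈ O := one_mem _
    show (if h : (1 : FF Lc.S₁) ∈ O then res ⟨1, h⟩ else 0) = 1
    rw [dif_pos h1]
    exact map_one res
  · intro a
    obtain ⟨x, rfl⟩ := hsurj a
    exact ⟨x, x.2, dif_pos x.2⟩
  · intro x hx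
    have h1 : x ∈ O := hx
    show (if h : x ∈ O then res ⟨x, h⟩ else 0) = 0 ↔ _
    rw [dif_pos h1]
    exact resk_res Lc ⟨x, h1⟩
  · intro x y hx hy
    have h1 : x ∈ O := hx
    have h2 : y ∈ O := hy
    have h3 : x + y ∈ O := add_mem h1 h2
    have h4 : x * y ∈ O := mul_mem h1 h2
    show (if h : x + y ∈ O then res ⟨x + y, h⟩ else 0) =
      (if h : x ∈ O then res ⟨x, h⟩ else 0) + (if h : y ∈ O then res ⟨y, h⟩ else 0) ∧
      (if h : x * y ∈ O then res ⟨x * y, h⟩ else 0) =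
      (if h : x ∈ O then res ⟨x, h⟩ else 0) * (if h : y ∈ O then res ⟨y, h⟩ else 0)
    rw [dif_pos h1, dif_pos h2, dif_pos h3, dif_pos h4]
    exact ⟨map_add res ⟨x, h1⟩ ⟨y, h2⟩, map_mul res ⟨x, h1⟩ ⟨y, h2⟩⟩

end Pool.Agent.Helper14.BSC
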